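import Mathlib
import Pool.Agent.Q202.MSM.Basic

/-!
# MP_c6a6a6_lc: `T_Sqf` is not MS-measurable

`LSqf` is the language `{+, -, 1, (P_m)_{m ≥ 1}, (U_{p,l})_{p prime, l ∈ ℤ}}`, `ℤ` is its standard
structure, `TSqf` is the complete theory of `ℤ`.  MS-measurability is
`Pool.Agent.Q202.MSM.MSMeasurable`: conditions 1, 2, 3 of the problem, written out.

No model of `TSqf`, of any cardinality, is MS-measurable.
-/

namespace Pool.Agent.Results.MP_c6a6a6_lc.NotMeasurable

open FirstOrder FirstOrder.Language Pool.Agent.Q202.MSM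

universe w

/-- function symbols: `+` (binary), `-` (unary), `1` (constant) -/
inductive Fn : ℕ → Type
  | add : Fn 2
  | neg : Fn 1
  | one : Fn 0

/-- relation symbols: unary `P_m` for `m ≥ 1` and unary `U_{p,l}` for `p` prime, `l ∈ ℤ` -/
inductive Rl : ℕ → Type
  | P : ℕ+ → Rl 1
  | U : Nat.Primes → ℤ → Rl 1

/-- the language `{+, -, 1, (P_m), (U_{p,l})}` -/
def LSqf : FirstOrder.Language.{0, 0} := ⟨Fn, Rl⟩

/-- `a ∈ P_m`: `v_p(a) < 2 + v_p(m)` for all primes `p` -/
def IsP (m : ℕ+) (a : ℤ) : Prop :=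
  ∀ p : ℕ, p.Prime → emultiplicity (p : ℤ) a < 2 + emultiplicity p (m : ℕ)

/-- `a ∈ U_{p,l}`: `v_p(a) ≥ l`, with `v_p(0) = ∞` -/
def IsU (p : Nat.Primes) (l : ℤ) (a : ℤ) : Prop :=
  a = 0 ∨ l ≤ (padicValInt (p : ℕ) a : ℤ)

instance structInt : LSqf.Structure ℤ where
  funMap := fun {n} f => match n, f with
    | _, Fn.add => fun v => v 0 + v 1
    | _, Fn.neg => fun v => - v 0
    | _, Fn.one => fun _ => 1
  RelMap := fun {n} r => match n, r with
    | _, Rl.P m => fun v => IsP m (v 0)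
    | _, Rl.U p l => fun v => IsU p l (v 0)

/-- the complete `LSqf`-theory of `ℤ` -/
def TSqf : LSqf.Theory := LSqf.completeTheory ℤ

/-! ### proof -/

section

variable {α : Type}

def tadd (a b : LSqf.Term α) : LSqf.Term α := Functions.apply₂ (L := LSqf) Fn.add a b
def tone : LSqf.Term α := Constants.term (L := LSqf) Fn.one

def dbl (a : LSqf.Term α) : LSqf.Term α := tadd a a
def dbl1 (a : LSqf.Term α) : LSqf.Term α := tadd (tadd a a) tone

end

def s1 : LSqf.Sentence := ∀' ∀' ((dbl &0 =' dbl &1) ⟹ (&0 =' &1))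
def s2 : LSqf.Sentence := ∀' ∃' ((&0 =' dbl &1) ⊔ (&0 =' dbl1 &1))
def s3 : LSqf.Sentence := ∀' ∀' ∼(dbl &0 =' dbl1 &1)
def s4 : LSqf.Sentence := ∀' ∀' ((dbl1 &0 =' dbl1 &1) ⟹ (&0 =' &1))

section

variable (M : Type w) [LSqf.Structure M]

def D0 (x : M) : M := Structure.funMap (L := LSqf) (Fn.add : LSqf.Functions 2) ![x, x]
def D1 (x : M) : M := Structure.funMap (L := LSqf) (Fn.add : LSqf.Functions 2)
  ![D0 M x, (Structure.funMap (L := LSqf) (Fn.one : LSqf.Functions 0) default)]

theorem realize_tadd {α : Type} (v : α → M) (a b : LSqf.Term α) :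
    (tadd a b).realize v = Structure.funMap (L := LSqf) (Fn.add : LSqf.Functions 2)
      ![a.realize v, b.realize v] := by
  show Structure.funMap (L := LSqf) (M := M) (Fn.add : LSqf.Functions 2)
    (fun i => ((![a, b] : Fin 2 → LSqf.Term α) i).realize v) = _
  congr 1
  funext i
  fin_cases i <;> rfl

theorem realize_tone {α : Type} (v : α → M) :
    (tone : LSqf.Term α).realize v =
      Structure.funMap (L := LSqf) (Fn.one : LSqf.Functions 0) default := by
  show Structure.funMap (L := LSqf) (M := M) (Fn.one : LSqf.Functions 0)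
    (fun i => ((default : Fin 0 → LSqf.Term α) i).realize v) = _
  congr 1
  funext i
  exact i.elim0

theorem realize_dbl {α : Type} (v : α → M) (t : LSqf.Term α) :
    (dbl t).realize v = D0 M (t.realize v) := by
  rw [dbl, realize_tadd, D0]

theorem realize_dbl1 {α : Type} (v : α → M) (t : LSqf.Term α) :
    (dbl1 t).realize v = D1 M (t.realize v) := by
  rw [dbl1, realize_tadd, realize_tadd, realize_tone, D1, D0]

theorem r1 : M ⊨ s1 ↔ Function.Injective (D0 M) := by
  simp only [s1, Sentence.Realize, Formula.Realize, BoundedFormula.realize_all,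
    BoundedFormula.realize_imp, BoundedFormula.realize_bdEqual, realize_dbl]
  exact Iff.rfl

theorem r2 : M ⊨ s2 ↔ ∀ z, ∃ x, z = D0 M x ∨ z = D1 M x := by
  simp only [s2, Sentence.Realize, Formula.Realize, BoundedFormula.realize_all,
    BoundedFormula.realize_ex, BoundedFormula.realize_sup,
    BoundedFormula.realize_bdEqual, realize_dbl, realize_dbl1]
  exact Iff.rfl

theorem r3 : M ⊨ s3 ↔ ∀ x y, D0 M x ≠ D1 M y := by
  simp only [s3, Sentence.Realize, Formula.Realize, BoundedFormula.realize_all,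
    BoundedFormula.realize_not,
    BoundedFormula.realize_bdEqual, realize_dbl, realize_dbl1]
  exact Iff.rfl

theorem r4 : M ⊨ s4 ↔ Function.Injective (D1 M) := by
  simp only [s4, Sentence.Realize, Formula.Realize, BoundedFormula.realize_all,
    BoundedFormula.realize_imp, BoundedFormula.realize_bdEqual, realize_dbl1]
  exact Iff.rfl

theorem def0 : (Set.univ : Set M).DefinableFun LSqf (fun v : Fin 1 → M => D0 M (v 0)) := by
  have h := (dbl (Term.var 0 : LSqf.Term (Fin 1))).definableFun_realize (M := M)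
  have h2 : (dbl (Term.var 0 : LSqf.Term (Fin 1))).realize (M := M) =
      fun v : Fin 1 → M => D0 M (v 0) := by
    funext v; rw [realize_dbl]; rfl
  rw [h2] at h
  exact h.of_empty

theorem def1 : (Set.univ : Set M).DefinableFun LSqf (fun v : Fin 1 → M => D1 M (v 0)) := by
  have h := (dbl1 (Term.var 0 : LSqf.Term (Fin 1))).definableFun_realize (M := M)
  have h2 : (dbl1 (Term.var 0 : LSqf.Term (Fin 1))).realize (M := M) =
      fun v : Fin 1 → M => D1 M (v 0) := by
    funext v; rw [realize_dbl1]; rfl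
  rw [h2] at h
  exact h.of_empty

end

theorem D0Z (x : ℤ) : D0 ℤ x = x + x := rfl
theorem D1Z (x : ℤ) : D1 ℤ x = x + x + 1 := rfl

/-- No model of `TSqf` is MS-measurable. -/
theorem result : ∀ (M : Type w) [LSqf.Structure M] [Nonempty M], M ⊨ TSqf →
    ¬ MSMeasurable LSqf M := by
  intro M _ _ hM
  have key : ∀ σ : LSqf.Sentence, ℤ ⊨ σ → M ⊨ σ := by
    intro σ hσ
    exact hM.realize_of_mem σ hσ
  have h1 : Function.Injective (D0 M) := (r1 M).1 (key _ ((r1 ℤ).2 (by
    intro x y hxy; rw [D0Z, D0Z] at hxy; omega)))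
  have h2 : ∀ z, ∃ x, z = D0 M x ∨ z = D1 M x := (r2 M).1 (key _ ((r2 ℤ).2 (by
    intro z
    refine ⟨z / 2, ?_⟩
    rw [D0Z, D1Z]
    omega)))
  have h3 : ∀ x y, D0 M x ≠ D1 M y := (r3 M).1 (key _ ((r3 ℤ).2 (by
    intro x y; rw [D0Z, D1Z]; omega)))
  have h4 : Function.Injective (D1 M) := (r4 M).1 (key _ ((r4 ℤ).2 (by
    intro x y hxy; rw [D1Z, D1Z] at hxy; omega)))
  refine not_MSMeasurable (D0 M) (D1 M) h1 h4 (def0 M) (def1 M) h3 ?_
  intro z
  obtain ⟨x, hx | hx⟩ := h2 z
  · exact Or.inl ⟨x, hx⟩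
  · exact Or.inr ⟨x, hx⟩

end Pool.Agent.Results.MP_c6a6a6_lc.NotMeasurable
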